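import Pool.Agent.L7h55.TN.Stm

/-!
Project TN (helper55), part CYR: the roots of unity among the roots of `S_n` are `1` and `-1`.
-/

set_option autoImplicit false

namespace Pool.Agent.L7h99.TN.Cyr

open Pool.Agent.L7h55.TN

lemma step (hO : S_ODD) {M : ℕ} (hM : 3 ≤ M) {a : ℕ} (hc : Nat.Coprime M a) {η w : ℂ}
    {k : ℕ} (hk : 0 < k) (hηk : η ^ k = 1) (hw : IsIntegral ℤ w)
    (h : (a : ℂ) * (η - 1) = M * w) : η = 1 := by
  have hη : IsIntegral ℤ η := IsIntegral.of_pow hk (by rw [hηk]; exact isIntegral_one)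
  have hb := Nat.gcd_eq_gcd_ab M a
  have hc1 : Nat.gcd M a = 1 := hc
  rw [hc1] at hb
  have hbC : (1 : ℂ) = M * (Nat.gcdA M a : ℂ) + a * (Nat.gcdB M a : ℂ) := by
    exact_mod_cast hb
  have hu : IsIntegral ℤ ((Nat.gcdA M a : ℤ) : ℂ) := by
    simpa using (isIntegral_algebraMap (R := ℤ) (A := ℂ) (x := Nat.gcdA M a))
  have hv : IsIntegral ℤ ((Nat.gcdB M a : ℤ) : ℂ) := by
    simpa using (isIntegral_algebraMap (R := ℤ) (A := ℂ) (x := Nat.gcdB M a))
  refine hO M η ((Nat.gcdA M a : ℂ) * (η - 1) + (Nat.gcdB M a : ℂ) * w) k hM hk hηk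
    ((hu.mul (hη.sub isIntegral_one)).add (hv.mul hw)) ?_
  calc η - 1 = 1 * (η - 1) := by ring
    _ = (M * (Nat.gcdA M a : ℂ) + a * (Nat.gcdB M a : ℂ)) * (η - 1) := by rw [← hbC]
    _ = M * ((Nat.gcdA M a : ℂ) * (η - 1)) + (Nat.gcdB M a : ℂ) * (a * (η - 1)) := by ring
    _ = M * ((Nat.gcdA M a : ℂ) * (η - 1)) + (Nat.gcdB M a : ℂ) * (M * w) := by rw [h]
    _ = M * ((Nat.gcdA M a : ℂ) * (η - 1) + (Nat.gcdB M a : ℂ) * w) := by ring

lemma fin {z : ℂ} {r : ℕ} (h1 : z ^ (r + 2) = 1) (h2 : z ^ r = 1) : z = 1 ∨ z = -1 := by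
  have h : (z - 1) * (z + 1) = 0 := by
    have : z ^ r * z ^ 2 = 1 := by rw [← pow_add]; exact h1
    rw [h2, one_mul] at this
    linear_combination this
  rcases mul_eq_zero.mp h with h | h
  · left; linear_combination h
  · right; linear_combination h

lemma odd_prime_three {p : ℕ} (hp : p.Prime) (ho : Odd p) : 3 ≤ p := by
  have := hp.two_le
  rcases ho with ⟨t, rfl⟩
  omega

lemma cop {p a : ℕ} (hp : p.Prime) (ho : Odd p) (h : ¬ p ∣ a) : Nat.Coprime p a :=
  (Nat.Prime.coprime_iff_not_dvd hp).mpr h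

theorem s_CYR' (hO : S_ODD) : S_CYR := by
  intro n hn z hz k hk hzk
  obtain ⟨r, rfl⟩ : ∃ r, n = r + 1 := ⟨n - 1, by omega⟩
  have hr : 1 ≤ r := by omega
  have hzI : IsIntegral ℤ z := IsIntegral.of_pow hk (by rw [hzk]; exact isIntegral_one)
  have hz0 : z ≠ 0 := by
    rintro rfl
    rw [zero_pow hk.ne'] at hzk
    exact zero_ne_one hzk
  have hS : (r : ℂ) * (z ^ (r + 2) - 1) = ((r + 2 : ℕ) : ℂ) * (z * (z ^ r - 1)) := by
    unfold S at hz
    push_cast at hz ⊢
    linear_combination hz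
  have hr0 : (r : ℂ) ≠ 0 := by exact_mod_cast (by omega : r ≠ 0)
  have hr2 : ((r + 2 : ℕ) : ℂ) ≠ 0 := by exact_mod_cast (by omega : r + 2 ≠ 0)
  -- if `z ^ (r + 2) = 1` then `z ^ r = 1`
  have A1 : z ^ (r + 2) = 1 → z ^ r = 1 := by
    intro h
    rw [h, sub_self, mul_zero] at hS
    have h1 := hS.symm
    rcases mul_eq_zero.mp h1 with h | h
    · exact absurd h hr2
    · rcases mul_eq_zero.mp h with h | h
      · exact absurd h hz0
      · linear_combination h
  have A2 : z ^ r = 1 → z ^ (r + 2) = 1 := by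
    intro h
    rw [h, sub_self, mul_zero, mul_zero] at hS
    rcases mul_eq_zero.mp hS with h | h
    · exact absurd h hr0
    · linear_combination h
  have two : ∀ p : ℕ, p.Prime → Odd p → p ∣ r → p ∣ r + 2 → False := by
    intro p hp ho h1 h2
    have h3 : p ∣ 2 := (Nat.dvd_add_right h1).mp h2
    have := Nat.le_of_dvd (by norm_num) h3
    have := odd_prime_three hp ho
    omega
  have powk : ∀ j : ℕ, (z ^ j) ^ k = 1 := by
    intro j
    rw [← pow_mul, mul_comm, pow_mul, hzk, one_pow]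
  rcases Nat.eq_two_pow_or_exists_odd_prime_and_dvd (r + 2) with ⟨a, ha⟩ | ⟨p, hp, hpd, ho⟩
  · rcases Nat.eq_two_pow_or_exists_odd_prime_and_dvd r with ⟨b, hb⟩ | ⟨p, hp, hpd, ho⟩
    · -- both are powers of two
      have hr2' : r = 2 := by
        rcases b with _ | _ | b
        · -- r = 1
          simp at hb
          subst hb
          rcases a with _ | a
          · norm_num at ha
          · rw [pow_succ] at ha
            omega
        · simpa using hb
        · rcases a with _ | _ | a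
          · have ha' : r + 2 = 1 := by simpa using ha
            omega
          · have ha' : r + 2 = 2 := by simpa using ha
            omega
          · exfalso
            rw [pow_succ, pow_succ] at ha hb
            omega
      subst hr2'
      have hf : (z - 1) ^ 3 * (z + 1) = 0 := by
        push_cast at hS
        linear_combination hS / 2
      rcases mul_eq_zero.mp hf with h | h
      · left
        have := pow_eq_zero_iff (n := 3) (by norm_num) |>.mp h
        linear_combination this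
      · right; linear_combination h
    · -- an odd prime divides `r`
      obtain ⟨s, hs⟩ := hpd
      have hnd : ¬ p ∣ r + 2 := fun h => two p hp ho ⟨s, hs⟩ h
      obtain ⟨k', rfl⟩ : ∃ k', k = k' + 1 := ⟨k - 1, by omega⟩
      have h1 : z ^ r = 1 := by
        refine step hO (odd_prime_three hp ho) (cop hp ho hnd) (k := k' + 1) hk (powk r)
          (w := (s : ℂ) * (z ^ k' * (z ^ (r + 2) - 1))) ?_ ?_
        · have hsI : IsIntegral ℤ (s : ℂ) := by
            simpa using (isIntegral_algebraMap (R := ℤ) (A := ℂ) (x := (s : ℤ)))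
          exact hsI.mul ((hzI.pow _).mul ((hzI.pow _).sub isIntegral_one))
        · have e1 : z ^ k' * z = 1 := by rw [← pow_succ]; exact hzk
          have e2 : (r : ℂ) = p * s := by exact_mod_cast hs
          calc ((r + 2 : ℕ) : ℂ) * (z ^ r - 1)
              = (z ^ k' * z) * (((r + 2 : ℕ) : ℂ) * (z ^ r - 1)) := by rw [e1, one_mul]
            _ = z ^ k' * (((r + 2 : ℕ) : ℂ) * (z * (z ^ r - 1))) := by ring
            _ = z ^ k' * ((r : ℂ) * (z ^ (r + 2) - 1)) := by rw [hS]
            _ = (p : ℂ) * ((s : ℂ) * (z ^ k' * (z ^ (r + 2) - 1))) := by rw [e2]; ring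
      exact fin (A2 h1) h1
  · -- an odd prime divides `r + 2`
    obtain ⟨s, hs⟩ := hpd
    have hnd : ¬ p ∣ r := fun h => two p hp ho h ⟨s, hs⟩
    have h1 : z ^ (r + 2) = 1 := by
      refine step hO (odd_prime_three hp ho) (cop hp ho hnd) hk (powk (r + 2))
        (w := (s : ℂ) * (z * (z ^ r - 1))) ?_ ?_
      · have hsI : IsIntegral ℤ (s : ℂ) := by
          simpa using (isIntegral_algebraMap (R := ℤ) (A := ℂ) (x := (s : ℤ)))
        exact hsI.mul (hzI.mul ((hzI.pow _).sub isIntegral_one))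
      · rw [hS, hs]
        push_cast
        ring
    exact fin h1 (A1 h1)

end Pool.Agent.L7h99.TN.Cyr

namespace Pool.Agent.L7h99.TN

/-- part CYR -/
theorem s_CYR (hO : Pool.Agent.L7h55.TN.S_ODD) : Pool.Agent.L7h55.TN.S_CYR :=
  Cyr.s_CYR' hO

end Pool.Agent.L7h99.TN
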