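import Pool.Agent.L7h26.TN.Stm

/-! Project TN: LOCM. -/

set_option autoImplicit false

namespace Pool.Agent.L7h99.TN

open Polynomial
open Pool.Agent.L7h26.TN

theorem dvd_natDegree_of_mul_eq_pow {p : ℕ} [Fact p.Prime] {a b c : (ZMod p)[X]}
    (hab : IsCoprime a b) (h : a * b = c ^ p) : p ∣ a.natDegree := by
  obtain ⟨d, hd⟩ := exists_associated_pow_of_mul_eq_pow' hab h
  have h1 : (d ^ p).natDegree = a.natDegree := by
    apply Polynomial.natDegree_eq_of_degree_eq
    exact Polynomial.degree_eq_degree_of_associated hd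
  rw [← h1, Polynomial.natDegree_pow]
  exact dvd_mul_right _ _

theorem red_S {p n m : ℕ} [Fact p.Prime] (hn : 1 ≤ n) (hm : n - 1 = p * m) :
    red p (S n) = C (-2 : ZMod p) * (X * (X ^ m - 1) ^ p) := by
  have hnm : n = p * m + 1 := by omega
  have h1 : (X : (ZMod p)[X]) ^ (p * m) - 1 = (X ^ m - 1) ^ p := by
    rw [sub_pow_char, ← pow_mul, one_pow, mul_comm m p]
  rw [← h1]
  subst hnm
  unfold red S
  simp only [Polynomial.map_sub, Polynomial.map_mul, Polynomial.map_pow, Polynomial.map_X,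
    Polynomial.map_one, Polynomial.map_C]
  have e1 : (Int.castRingHom (ZMod p)) (((p * m + 1 : ℕ) : ℤ) - 1) = 0 := by
    simp
  have e2 : (Int.castRingHom (ZMod p)) (((p * m + 1 : ℕ) : ℤ) + 1) = 2 := by
    push_cast
    simp
    norm_num
  rw [e1, e2]
  have e3 : (C (-2 : ZMod p)) = -C (2 : ZMod p) := by rw [← C_neg]
  rw [e3, C_0]
  ring

theorem half {p n : ℕ} [Fact p.Prime] (hp2 : p ≠ 2) (hn : 4 ≤ n)
    (hex : Ex p (n - 1)) (g h : ℤ[X]) (hS : (X - 1) ^ 3 * (g * h) = S n)
    (hco : IsCoprime (red p g) (red p h)) (hh : h.leadingCoeff.natAbs = (h.coeff 0).natAbs)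
    (hX : X ∣ red p g) : p ∣ h.natDegree * (h.natDegree + 3) := by
  have hp : p.Prime := Fact.out
  obtain ⟨⟨m, hm⟩, hm2⟩ := hex
  have hred := red_S (p := p) (n := n) (m := m) (by omega) hm
  rw [← hS] at hred
  have e0 : red p ((X - 1) ^ 3 * (g * h)) = (X - 1) ^ 3 * (red p g * red p h) := by
    unfold red
    simp only [Polynomial.map_sub, Polynomial.map_mul, Polynomial.map_pow, Polynomial.map_X,
      Polynomial.map_one]
  rw [e0] at hred
  set G := red p g with hG
  set H := red p h with hH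
  obtain ⟨G2, hG2⟩ := hX
  have hXH : ¬ X ∣ H := by
    intro hXH
    have h1 : IsUnit (X : (ZMod p)[X]) := hco.isUnit_of_dvd' ⟨G2, hG2⟩ hXH
    exact Polynomial.not_isUnit_X h1
  have hdeg : H.natDegree = h.natDegree := by
    rw [hH]
    unfold red
    apply Polynomial.natDegree_map_of_leadingCoeff_ne_zero
    intro h0
    have h1 : ((p : ℕ) : ℤ) ∣ h.leadingCoeff := by
      rw [← CharP.intCast_eq_zero_iff (ZMod p) p]
      exact h0
    have h2 : ((p : ℕ) : ℤ) ∣ h.coeff 0 := by
      rw [Int.natCast_dvd] at h1 ⊢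
      rwa [← hh]
    apply hXH
    rw [Polynomial.X_dvd_iff, hH]
    unfold red
    rw [Polynomial.coeff_map]
    exact (CharP.intCast_eq_zero_iff (ZMod p) p _).2 h2
  -- cancel X
  have hc : (X - 1) ^ 3 * (G2 * H) = (C (-2 : ZMod p) * (X ^ m - 1)) ^ p := by
    have h1 : (X : (ZMod p)[X]) * ((X - 1) ^ 3 * (G2 * H)) =
        X * (C (-2 : ZMod p) * (X ^ m - 1) ^ p) := by
      rw [hG2] at hred
      linear_combination hred
    have h2 := mul_left_cancel₀ Polynomial.X_ne_zero h1
    rw [h2, mul_pow, ← C_pow, ZMod.pow_card]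
  have hirr : Irreducible (X - 1 : (ZMod p)[X]) := by
    have := Polynomial.irreducible_X_sub_C (1 : ZMod p)
    rwa [C_1] at this
  have hcoG2 : IsCoprime G2 H := by
    rw [hG2] at hco
    exact hco.of_mul_left_right
  rw [← hdeg]
  by_cases hdv : (X - 1 : (ZMod p)[X]) ∣ H
  · have hndv : ¬ (X - 1 : (ZMod p)[X]) ∣ G2 := by
      intro h1
      exact hirr.not_isUnit (hcoG2.isUnit_of_dvd' h1 hdv)
    have h1 : IsCoprime ((X - 1) ^ 3 * H) G2 := by
      apply IsCoprime.mul_left
      · exact ((hirr.coprime_iff_not_dvd).2 hndv).pow_left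
      · exact hcoG2.symm
    have h2 : ((X - 1) ^ 3 * H) * G2 = (C (-2 : ZMod p) * (X ^ m - 1)) ^ p := by
      rw [← hc]
      ring
    have h3 := dvd_natDegree_of_mul_eq_pow h1 h2
    have hH0 : H ≠ 0 := by
      intro h0
      rw [h0] at hXH
      exact hXH (dvd_zero _)
    have h4 : ((X - 1 : (ZMod p)[X]) ^ 3 * H).natDegree = H.natDegree + 3 := by
      have e1 : (X - 1 : (ZMod p)[X]) = X - C 1 := by rw [C_1]
      rw [Polynomial.natDegree_mul (pow_ne_zero 3 hirr.ne_zero) hH0, Polynomial.natDegree_pow, e1,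
        Polynomial.natDegree_X_sub_C]
      ring
    rw [h4] at h3
    exact h3.mul_left _
  · have h1 : IsCoprime H ((X - 1) ^ 3 * G2) := by
      apply IsCoprime.mul_right
      · exact (((hirr.coprime_iff_not_dvd).2 hdv).pow_left).symm
      · exact hcoG2.symm
    have h2 : H * ((X - 1) ^ 3 * G2) = (C (-2 : ZMod p) * (X ^ m - 1)) ^ p := by
      rw [← hc]
      ring
    exact (dvd_natDegree_of_mul_eq_pow h1 h2).mul_right _

theorem s_LOCM : S_LOCM := by
  intro p n hp hp2 hev hn hex g h hS hco hg hh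
  haveI : Fact p.Prime := ⟨hp⟩
  obtain ⟨⟨m, hm⟩, hm2⟩ := id hex
  have hred := red_S (p := p) (n := n) (m := m) (by omega) hm
  rw [← hS] at hred
  have e0 : red p ((X - 1) ^ 3 * (g * h)) = (X - 1) ^ 3 * (red p g * red p h) := by
    unfold red
    simp only [Polynomial.map_sub, Polynomial.map_mul, Polynomial.map_pow, Polynomial.map_X,
      Polynomial.map_one]
  rw [e0] at hred
  have hprime : Prime (X : (ZMod p)[X]) := Polynomial.prime_X
  have h1 : (X : (ZMod p)[X]) ∣ (X - 1) ^ 3 * (red p g * red p h) := by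
    rw [hred]
    exact ⟨C (-2 : ZMod p) * (X ^ m - 1) ^ p, by ring⟩
  rcases hprime.dvd_or_dvd h1 with h2 | h2
  · exfalso
    have h3 := hprime.dvd_of_dvd_pow h2
    rw [Polynomial.X_dvd_iff] at h3
    simp at h3
  · rcases hprime.dvd_or_dvd h2 with h3 | h3
    · right
      exact half hp2 hn hex g h hS hco hh h3
    · left
      exact half hp2 hn hex h g (by rw [mul_comm h g]; exact hS) hco.symm hg h3

end Pool.Agent.L7h99.TN
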